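import Pool.Agent.K1H79.Q3.StmA

set_option autoImplicit false

/-! The algebraic conditions of the Burgess argument for the ring `RR M g`. -/

namespace Pool.Agent.K1H16.Q3

open Finset Pool.Agent.K1H79.Q3
open scoped QuadraticAlgebra

theorem jac_mul (n : ℕ) [NeZero n] (u v : ZMod n) :
    jacobiSym ((u * v).val : ℤ) n = jacobiSym (u.val : ℤ) n * jacobiSym (v.val : ℤ) n := by
  rw [ZMod.val_mul, ← jacobiSym.mul_left]
  push_cast
  rw [← jacobiSym.mod_left]

theorem jac_abs (a : ℤ) (n : ℕ) : |((jacobiSym a n : ℤ) : ℝ)| ≤ 1 := by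
  rcases jacobiSym.trichotomy a n with h | h | h <;> rw [h] <;> norm_num

theorem XR_mul (M g : ℕ) [NeZero M] [NeZero g] (x y : RR M g) :
    XR M g (x * y) = XR M g x * XR M g y := by
  unfold XR XM XG
  rw [Prod.fst_mul, Prod.snd_mul, jac_mul, map_mul, jac_mul]
  push_cast
  ring

theorem XR_abs (M g : ℕ) (x : RR M g) : |XR M g x| ≤ 1 := by
  unfold XR XM XG
  rw [abs_mul]
  exact mul_le_one₀ (jac_abs _ _) (abs_nonneg _) (jac_abs _ _)

theorem mul_star' (z : E) : z * star z = ((nm z : ℕ) : E) := by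
  rw [← QuadraticAlgebra.algebraMap_norm_eq_mul_star]
  have h : QuadraticAlgebra.norm z = ((nm z : ℕ) : ℤ) := by
    rw [nm, Int.natAbs_of_nonneg (norm_nonneg' z)]
  rw [h]
  simp

theorem good_pos {M g : ℕ} (h : Good M g) : 0 < M ∧ 0 < g := ⟨h.1.pos, h.2.1.pos⟩

theorem good_coprime {M g : ℕ} (h : Good M g) : Nat.Coprime M g :=
  Nat.coprime_of_squarefree_mul h.2.2.1

theorem phi_zero {M g : ℕ} (hG : Good M g) (φ : E →+* ZMod M) {z : E} (h : PhiR M g φ z = 0)
    (hz : z ≠ 0) : M * g ^ 2 ≤ nm z := by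
  have h1 : φ z = 0 := congrArg Prod.fst h
  have h2 : redE g z = 0 := congrArg Prod.snd h
  have h3 : ((z.re : ℤ) : ZMod g) = 0 := congrArg QuadraticAlgebra.re h2
  have h4 : ((z.im : ℤ) : ZMod g) = 0 := congrArg QuadraticAlgebra.im h2
  rw [ZMod.intCast_zmod_eq_zero_iff_dvd] at h3 h4
  obtain ⟨a, ha⟩ := h3
  obtain ⟨b, hb⟩ := h4
  have hz1 : z = ((g : ℕ) : E) * ⟨a, b⟩ := by
    ext
    · simp [ha]
    · simp [hb]
  set w : E := ⟨a, b⟩ with hw
  have hw0 : w ≠ 0 := by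
    rintro h0
    rw [h0, mul_zero] at hz1
    exact hz hz1
  have hnm : nm z = g ^ 2 * nm w := by
    rw [hz1, nm_mul]
    congr 1
    have h5 : ((nm ((g : ℕ) : E) : ℕ) : ℤ) = (g : ℤ) ^ 2 := by
      rw [nm_cast]
      simp
    exact_mod_cast h5
  have hφw : φ w = 0 := by
    rw [hz1, map_mul, map_natCast] at h1
    have hu : IsUnit ((g : ℕ) : ZMod M) := by
      rw [ZMod.isUnit_iff_coprime]
      exact (good_coprime hG).symm
    exact (hu.mul_right_eq_zero).1 h1
  have h6 : ((nm w : ℕ) : ZMod M) = 0 := by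
    have h7 := congrArg φ (mul_star' w)
    rw [map_mul, hφw, zero_mul, map_natCast] at h7
    exact h7.symm
  rw [ZMod.natCast_eq_zero_iff] at h6
  have h8 := Nat.le_of_dvd (nm_pos hw0) h6
  rw [hnm, mul_comm M]
  exact Nat.mul_le_mul_left _ h8

theorem phi_unit {M g : ℕ} (hG : Good M g) (φ : E →+* ZMod M) {p : ℕ} (hp : p.Prime)
    (hpq : ¬ p ∣ M * g ^ 2) {a : E} (ha : nm a = p) : IsUnit (PhiR M g φ (8 * a)) := by
  have hpM : ¬ p ∣ M := fun h => hpq (Dvd.dvd.mul_right h _)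
  have hpg : ¬ p ∣ g := fun h => hpq (Dvd.dvd.mul_left (Dvd.dvd.pow h two_ne_zero) _)
  have hcM : Nat.Coprime (64 * p) M := by
    apply Nat.Coprime.mul_left
    · have : Nat.Coprime 2 M := (Nat.coprime_two_left).2 hG.1
      exact (Nat.Coprime.pow_left 6 this)
    · exact (Nat.Prime.coprime_iff_not_dvd hp).2 hpM
  have hcg : Nat.Coprime (64 * p) g := by
    apply Nat.Coprime.mul_left
    · have : Nat.Coprime 2 g := (Nat.coprime_two_left).2 hG.2.1
      exact (Nat.Coprime.pow_left 6 this)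
    · exact (Nat.Prime.coprime_iff_not_dvd hp).2 hpg
  have h1 : (8 * a) * (8 * star a) = ((64 * p : ℕ) : E) := by
    have h2 : (8 * a) * (8 * star a) = 64 * (a * star a) := by ring
    rw [h2, mul_star', ha]
    push_cast
    rfl
  have h3 : IsUnit (PhiR M g φ ((8 * a) * (8 * star a))) := by
    rw [h1, map_natCast, Prod.isUnit_iff]
    constructor
    · rw [Prod.fst_natCast]
      exact (ZMod.isUnit_iff_coprime _ _).2 hcM
    · rw [Prod.snd_natCast]
      have h4 : IsUnit (((64 * p : ℕ)) : ZMod g) := (ZMod.isUnit_iff_coprime _ _).2 hcg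
      have h5 := h4.map (algebraMap (ZMod g) (Eg g))
      rw [map_natCast] at h5
      exact h5
  rw [map_mul] at h3
  exact isUnit_of_mul_isUnit_left h3

theorem per_abs {q : ℕ} {χ : E → ℝ} (h : Per q χ) (z : E) : |χ z| ≤ 1 := by
  obtain ⟨M, g, φ, ψ, -, -, -, h1, h2⟩ := h
  rw [h2, abs_mul]
  exact mul_le_one₀ (h1 z) (abs_nonneg _) (XR_abs _ _ _)

theorem per_pos {q : ℕ} {χ : E → ℝ} (h : Per q χ) : 1 ≤ q := by
  obtain ⟨M, g, φ, ψ, hG, hq, -⟩ := h
  rw [← hq]
  obtain ⟨h1, h2⟩ := good_pos hG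
  exact Nat.mul_pos h1 (pow_pos h2 2)

theorem card_EB (T : ℕ) : (EB T).card ≤ (2 * T + 1) ^ 2 := by
  unfold EB
  refine (Finset.card_filter_le _ _).trans (Finset.card_image_le.trans ?_)
  rw [Finset.card_product, Int.card_Icc, pow_two]
  have h : ((T : ℤ) + 1 - -(T : ℤ)).toNat = 2 * T + 1 := by omega
  rw [h]

end Pool.Agent.K1H16.Q3
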