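import Pool.Agent.K1H16.Q3.Alg

set_option autoImplicit false

/-! Burgess' bound in `ℤ[ω]`: the choice of the parameters. -/

namespace Pool.Agent.K1H16.Q3

open Finset Pool.Agent.K1H79.Q3 Filter
open scoped QuadraticAlgebra

theorem large {η : ℝ} (hη : 0 < η) (C₃ : ℝ) : ∃ Q₀ : ℝ, 1 ≤ Q₀ ∧ ∀ q : ℝ, Q₀ ≤ q →
    2 ≤ q ^ (η / 4) ∧ 17 ≤ q ^ (3 / 8 : ℝ) ∧ C₃ ≤ q ^ (η / 2) := by
  have h1 := (tendsto_rpow_atTop (show 0 < η / 4 by positivity)).eventually_ge_atTop 2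
  have h2 := (tendsto_rpow_atTop (show (0 : ℝ) < 3 / 8 by norm_num)).eventually_ge_atTop 17
  have h3 := (tendsto_rpow_atTop (show 0 < η / 2 by positivity)).eventually_ge_atTop C₃
  obtain ⟨Q₀, hQ₀⟩ := eventually_atTop.1 ((h1.and h2).and h3)
  refine ⟨max 1 Q₀, le_max_left _ _, fun q hq => ?_⟩
  obtain ⟨⟨h4, h5⟩, h6⟩ := hQ₀ q ((le_max_right _ _).trans hq)
  exact ⟨h4, h5, h6⟩

/-- the parameters `A` and `B` -/
theorem params {η δ Q T : ℝ} {r : ℕ} (hη : 0 < η) (hη' : η ≤ 1 / 8) (hr : 1 ≤ r)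
    (hr' : 1 / (r : ℝ) ≤ η / 8) (hδ0 : 0 < δ) (hδ : δ ≤ η / 4) (hQ : 1 ≤ Q)
    (hQ1 : 2 ≤ Q ^ (η / 4)) (hQ2 : 17 ≤ Q ^ (3 / 8 : ℝ)) (hT1 : Q ^ (1 / 4 + η) ≤ T)
    (hT2 : T ≤ Q ^ (1 / 2 + δ)) : ∃ A B : ℕ, 1 ≤ B ∧ Q ^ (1 / (2 * r : ℝ)) ≤ B ∧
      16 * A * T < Q ∧ Q ^ (η / 2) ≤ A ∧ (A : ℝ) ≤ Q ∧ Q ^ (1 / 2 + η) / 2 ≤ A * T ∧
      B * √(A * T) + B ^ 2 * A ≤ 6 * T * Q ^ (-δ) := by
  have hQ0 : 0 < Q := by linarith
  have hmono : ∀ a b : ℝ, a ≤ b → Q ^ a ≤ Q ^ b := fun a b h =>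
    Real.rpow_le_rpow_of_exponent_le hQ h
  have hone : ∀ a : ℝ, 0 ≤ a → 1 ≤ Q ^ a := fun a h => Real.one_le_rpow hQ h
  have hTpos : 0 < T := lt_of_lt_of_le (Real.rpow_pos_of_pos hQ0 _) hT1
  have hT1' : 1 ≤ T := (hone _ (by linarith)).trans hT1
  set x := Q ^ (1 / 2 + η) / T with hx
  have hxlow : Q ^ (3 * η / 4) ≤ x := by
    rw [hx, le_div_iff₀ hTpos]
    calc Q ^ (3 * η / 4) * T ≤ Q ^ (3 * η / 4) * Q ^ (1 / 2 + δ) :=
          mul_le_mul_of_nonneg_left hT2 (Real.rpow_nonneg hQ0.le _)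
      _ = Q ^ (3 * η / 4 + (1 / 2 + δ)) := (Real.rpow_add hQ0 _ _).symm
      _ ≤ _ := hmono _ _ (by linarith)
  have hx1 : 1 ≤ x := (hone _ (by linarith)).trans hxlow
  have hx0 : 0 ≤ x := by linarith
  set A := ⌊x⌋₊ with hA
  set y := Q ^ (1 / (2 * r : ℝ)) with hy
  have hy1 : 1 ≤ y := hone _ (by positivity)
  set B := ⌈y⌉₊ with hB
  have hAx : (A : ℝ) ≤ x := Nat.floor_le hx0
  have hA2 : x / 2 ≤ A := by
    have h1 : x < A + 1 := Nat.lt_floor_add_one x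
    have h2 : (1 : ℝ) ≤ A := by
      have : 1 ≤ A := Nat.le_floor (by simpa using hx1)
      exact_mod_cast this
    linarith
  have hB1 : y ≤ B := Nat.le_ceil y
  have hB2 : (B : ℝ) ≤ 2 * y := by
    have h1 : (B : ℝ) < y + 1 := Nat.ceil_lt_add_one (by linarith)
    linarith
  have hxT : x * T = Q ^ (1 / 2 + η) := by
    rw [hx]; field_simp
  have hAT : A * T ≤ Q ^ (1 / 2 + η) := by
    rw [← hxT]; exact mul_le_mul_of_nonneg_right hAx hTpos.le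
  have hAT2 : Q ^ (1 / 2 + η) / 2 ≤ A * T := by
    rw [← hxT]
    have := mul_le_mul_of_nonneg_right hA2 hTpos.le
    linarith
  have hA0 : (0 : ℝ) ≤ A := Nat.cast_nonneg _
  have hB0 : (0 : ℝ) ≤ B := Nat.cast_nonneg _
  refine ⟨A, B, ?_, hB1, ?_, ?_, ?_, hAT2, ?_⟩
  · have : (1 : ℝ) ≤ B := hy1.trans hB1
    exact_mod_cast this
  · have h1 : Q ^ (1 / 2 + η) ≤ Q ^ (5 / 8 : ℝ) := hmono _ _ (by linarith)
    have h2 : Q = Q ^ (5 / 8 : ℝ) * Q ^ (3 / 8 : ℝ) := by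
      rw [← Real.rpow_add hQ0]; norm_num
    have h3 : 0 < Q ^ (5 / 8 : ℝ) := Real.rpow_pos_of_pos hQ0 _
    have h4 : 17 * Q ^ (5 / 8 : ℝ) ≤ Q := by
      calc 17 * Q ^ (5 / 8 : ℝ) ≤ Q ^ (3 / 8 : ℝ) * Q ^ (5 / 8 : ℝ) :=
            mul_le_mul_of_nonneg_right hQ2 h3.le
        _ = Q := by rw [mul_comm]; exact h2.symm
    have h5 : 16 * (A : ℝ) * T = 16 * (A * T) := by ring
    rw [h5]
    linarith
  · have h1 : Q ^ (3 * η / 4) = Q ^ (η / 2) * Q ^ (η / 4) := by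
      rw [← Real.rpow_add hQ0]; congr 1; ring
    have h2 : 0 < Q ^ (η / 2) := Real.rpow_pos_of_pos hQ0 _
    nlinarith
  · have h1 : x ≤ Q ^ (1 / 2 + η) := by
      rw [← hxT]; nlinarith
    have h2 : Q ^ (1 / 2 + η) ≤ Q ^ (1 : ℝ) := hmono _ _ (by linarith)
    rw [Real.rpow_one] at h2
    linarith
  · have hr0 : (0 : ℝ) < r := by exact_mod_cast hr
    have h2r : 1 / (2 * r : ℝ) ≤ η / 16 := by
      have : 1 / (2 * r : ℝ) = (1 / (r : ℝ)) / 2 := by field_simp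
      rw [this]; linarith
    -- the first term
    have t1 : B * √(A * T) ≤ 2 * (T * Q ^ (-δ)) := by
      have h1 : √(A * T) ≤ Q ^ (1 / 4 + η / 2) := by
        rw [Real.sqrt_le_left (Real.rpow_nonneg hQ0.le _), ← Real.rpow_natCast, ← Real.rpow_mul hQ0.le]
        refine hAT.trans (le_of_eq ?_)
        congr 1; push_cast; ring
      calc (B : ℝ) * √(A * T) ≤ (2 * y) * Q ^ (1 / 4 + η / 2) :=
            mul_le_mul hB2 h1 (Real.sqrt_nonneg _) (by linarith)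
        _ = 2 * Q ^ (1 / (2 * r : ℝ) + (1 / 4 + η / 2)) := by
            rw [hy, Real.rpow_add hQ0 (1 / (2 * r : ℝ))]; ring
        _ ≤ 2 * Q ^ ((1 / 4 + η) + (-δ)) := by
            have := hmono (1 / (2 * r : ℝ) + (1 / 4 + η / 2)) ((1 / 4 + η) + (-δ)) (by linarith)
            linarith
        _ = 2 * (Q ^ (1 / 4 + η) * Q ^ (-δ)) := by rw [Real.rpow_add hQ0]
        _ ≤ 2 * (T * Q ^ (-δ)) := by
            have := mul_le_mul_of_nonneg_right hT1 (Real.rpow_nonneg hQ0.le (-δ))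
            linarith
    have t2 : (B : ℝ) ^ 2 * A ≤ 4 * (T * Q ^ (-δ)) := by
      have h1 : (B : ℝ) ^ 2 ≤ 4 * Q ^ (1 / (r : ℝ)) := by
        have h2 : y ^ 2 = Q ^ (1 / (r : ℝ)) := by
          rw [hy, ← Real.rpow_natCast, ← Real.rpow_mul hQ0.le]
          congr 1; push_cast; field_simp
        rw [← h2]
        nlinarith
      have h3 : Q ^ (1 / (r : ℝ)) * x ≤ T * Q ^ (-δ) := by
        rw [hx, mul_div_assoc', div_le_iff₀ hTpos]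
        calc Q ^ (1 / (r : ℝ)) * Q ^ (1 / 2 + η) = Q ^ (1 / (r : ℝ) + (1 / 2 + η)) :=
              (Real.rpow_add hQ0 _ _).symm
          _ ≤ Q ^ ((1 / 4 + η) + (1 / 4 + η) + (-δ)) := hmono _ _ (by linarith)
          _ = (Q ^ (1 / 4 + η) * Q ^ (1 / 4 + η)) * Q ^ (-δ) := by
              rw [Real.rpow_add hQ0, Real.rpow_add hQ0]
          _ ≤ (T * T) * Q ^ (-δ) := by
              apply mul_le_mul_of_nonneg_right _ (Real.rpow_nonneg hQ0.le _)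
              exact mul_le_mul hT1 hT1 (Real.rpow_nonneg hQ0.le _) hTpos.le
          _ = T * Q ^ (-δ) * T := by ring
      calc (B : ℝ) ^ 2 * A ≤ (4 * Q ^ (1 / (r : ℝ))) * x :=
            mul_le_mul h1 hAx hA0 (by positivity)
        _ = 4 * (Q ^ (1 / (r : ℝ)) * x) := by ring
        _ ≤ _ := by linarith
    calc B * √(A * T) + (B : ℝ) ^ 2 * A ≤ 2 * (T * Q ^ (-δ)) + 4 * (T * Q ^ (-δ)) := add_le_add t1 t2
      _ = _ := by ring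

/-- the second term -/
theorem second {η Q T S C₂ : ℝ} {r A B N : ℕ} (hη : 0 < η) (hη' : η ≤ 1 / 8) (hr : 1 ≤ r)
    (hQ : 1 ≤ Q) (hT : 0 < T) (hC : 0 < C₂) (hB : Q ^ (1 / (2 * r : ℝ)) ≤ B) (hAQ : (A : ℝ) ≤ Q)
    (hA0 : 0 < (A : ℝ)) (hAT : Q ^ (1 / 2 + η) / 2 ≤ A * T) (hN : (A : ℝ) ^ (1 - η / 4) ≤ N)
    (hS0 : 0 ≤ S) (hS : S ≤ C₂ * Q ^ (η / 4) * ((B : ℝ) ^ r * Q + (B : ℝ) ^ (2 * r) * √Q)) :
    (S / ((B : ℝ) ^ (2 * r) * (N * T))) ^ (1 / (2 * r : ℝ)) ≤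
      (4 * C₂) ^ (1 / (2 * r : ℝ)) * Q ^ (-(η / (4 * r))) := by
  have hQ0 : 0 < Q := by linarith
  have hr0 : (0 : ℝ) < r := by exact_mod_cast hr
  have hy0 : 0 < Q ^ (1 / (2 * r : ℝ)) := Real.rpow_pos_of_pos hQ0 _
  have hB0 : (0 : ℝ) < B := hy0.trans_le hB
  have hBr : √Q ≤ (B : ℝ) ^ r := by
    calc √Q = (Q ^ (1 / (2 * r : ℝ))) ^ r := by
          rw [← Real.rpow_natCast, ← Real.rpow_mul hQ0.le, Real.sqrt_eq_rpow]
          congr 1; field_simp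
      _ ≤ _ := pow_le_pow_left₀ hy0.le hB r
  have hsq : √Q * √Q = Q := Real.mul_self_sqrt hQ0.le
  have hs0 : 0 < √Q := Real.sqrt_pos.2 hQ0
  have h1 : (B : ℝ) ^ r * Q ≤ (B : ℝ) ^ (2 * r) * √Q := by
    have h2 : (B : ℝ) ^ (2 * r) = (B : ℝ) ^ r * (B : ℝ) ^ r := by rw [two_mul, pow_add]
    rw [h2]
    calc (B : ℝ) ^ r * Q = (B : ℝ) ^ r * (√Q * √Q) := by rw [hsq]
      _ ≤ (B : ℝ) ^ r * ((B : ℝ) ^ r * √Q) := by
          apply mul_le_mul_of_nonneg_left _ (by positivity)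
          exact mul_le_mul_of_nonneg_right hBr hs0.le
      _ = _ := by ring
  have hS2 : S ≤ 2 * C₂ * Q ^ (η / 4) * √Q * (B : ℝ) ^ (2 * r) := by
    refine hS.trans ?_
    have h3 : 0 < C₂ * Q ^ (η / 4) := mul_pos hC (Real.rpow_pos_of_pos hQ0 _)
    calc C₂ * Q ^ (η / 4) * ((B : ℝ) ^ r * Q + (B : ℝ) ^ (2 * r) * √Q) ≤
          C₂ * Q ^ (η / 4) * ((B : ℝ) ^ (2 * r) * √Q + (B : ℝ) ^ (2 * r) * √Q) :=
            mul_le_mul_of_nonneg_left (by linarith) h3.le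
      _ = _ := by ring
  -- the lower bound for `N T`
  have hNT : Q ^ (1 / 2 + 3 * η / 4) / 2 ≤ N * T := by
    have h4 : (A : ℝ) ^ (1 - η / 4) = A * (A : ℝ) ^ (-(η / 4)) := by
      rw [sub_eq_add_neg, Real.rpow_add hA0, Real.rpow_one]
    have h5 : Q ^ (-(η / 4)) ≤ (A : ℝ) ^ (-(η / 4)) :=
      Real.rpow_le_rpow_of_nonpos hA0 hAQ (by linarith)
    have h6 : (A * T) * Q ^ (-(η / 4)) ≤ N * T := by
      calc (A * T) * Q ^ (-(η / 4)) ≤ (A * T) * (A : ℝ) ^ (-(η / 4)) :=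
            mul_le_mul_of_nonneg_left h5 (by positivity)
        _ = (A : ℝ) ^ (1 - η / 4) * T := by rw [h4]; ring
        _ ≤ N * T := mul_le_mul_of_nonneg_right hN hT.le
    refine le_trans ?_ h6
    have h7 : Q ^ (1 / 2 + 3 * η / 4) = Q ^ (1 / 2 + η) * Q ^ (-(η / 4)) := by
      rw [← Real.rpow_add hQ0]; congr 1; ring
    rw [h7]
    have h8 : 0 ≤ Q ^ (-(η / 4)) := Real.rpow_nonneg hQ0.le _
    calc Q ^ (1 / 2 + η) * Q ^ (-(η / 4)) / 2 = (Q ^ (1 / 2 + η) / 2) * Q ^ (-(η / 4)) := by ring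
      _ ≤ _ := mul_le_mul_of_nonneg_right hAT h8
  have hNT0 : 0 < (N : ℝ) * T := lt_of_lt_of_le (by positivity) hNT
  have hfrac : S / ((B : ℝ) ^ (2 * r) * (N * T)) ≤ 4 * C₂ * Q ^ (-(η / 2)) := by
    have hB2 : (0 : ℝ) < (B : ℝ) ^ (2 * r) := by positivity
    rw [div_le_iff₀ (by positivity)]
    refine hS2.trans ?_
    have h9 : Q ^ (η / 4) * √Q ≤ 2 * Q ^ (-(η / 2)) * (N * T) := by
      have h10 : Q ^ (η / 4) * √Q = Q ^ (-(η / 2)) * Q ^ (1 / 2 + 3 * η / 4) := by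
        rw [Real.sqrt_eq_rpow, ← Real.rpow_add hQ0, ← Real.rpow_add hQ0]; congr 1; ring
      rw [h10]
      have h11 : 0 < Q ^ (-(η / 2)) := Real.rpow_pos_of_pos hQ0 _
      nlinarith
    calc 2 * C₂ * Q ^ (η / 4) * √Q * (B : ℝ) ^ (2 * r) =
          2 * C₂ * (B : ℝ) ^ (2 * r) * (Q ^ (η / 4) * √Q) := by ring
      _ ≤ 2 * C₂ * (B : ℝ) ^ (2 * r) * (2 * Q ^ (-(η / 2)) * (N * T)) :=
          mul_le_mul_of_nonneg_left h9 (by positivity)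
      _ = _ := by ring
  have hpos : 0 ≤ S / ((B : ℝ) ^ (2 * r) * (N * T)) := by positivity
  refine (Real.rpow_le_rpow hpos hfrac (by positivity)).trans (le_of_eq ?_)
  rw [Real.mul_rpow (by positivity) (Real.rpow_nonneg hQ0.le _), ← Real.rpow_mul hQ0.le]
  congr 2
  field_simp
  ring

/-- the bound for large `q` -/
theorem big {η : ℝ} (hη : 0 < η) (hη' : η ≤ 1 / 8) (hMOM : S_MOM) (hBG : S_BG) (hPRS : S_PRS) :
    ∃ (r : ℕ) (Q₀ C : ℝ), 1 ≤ r ∧ 1 ≤ Q₀ ∧ 0 < C ∧ ∀ (q : ℕ) (χ : E → ℝ), Per q χ → Q₀ ≤ q →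
      ∀ T : ℕ, (q : ℝ) ^ (1 / 4 + η) ≤ T → (T : ℝ) ≤ (q : ℝ) ^ (1 / 2 + η / (4 * r)) →
        |∑ z ∈ EB T, χ z| ≤ C * T * (q : ℝ) ^ (-(η / (4 * r))) := by
  classical
  set r : ℕ := ⌈8 / η⌉₊ with hr
  have h8 : 64 ≤ 8 / η := by
    rw [le_div_iff₀ hη]; linarith
  have hr1 : (8 / η) ≤ r := Nat.le_ceil _
  have hr64 : (64 : ℝ) ≤ r := h8.trans hr1
  have hr1' : 1 ≤ r := by
    have : (1 : ℝ) ≤ r := by linarith
    exact_mod_cast this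
  have hr0 : (0 : ℝ) < r := by linarith
  have hrinv : 1 / (r : ℝ) ≤ η / 8 := by
    rw [div_le_iff₀ hr0]
    rw [div_le_iff₀ hη] at hr1
    linarith
  have hδ0 : 0 < η / (4 * r) := by positivity
  have hδ : η / (4 * r) ≤ η / 4 := by
    apply div_le_div_of_nonneg_left hη.le (by norm_num)
    linarith
  obtain ⟨C₁, hC₁, hBG⟩ := hBG r hr1'
  obtain ⟨C₂, hC₂, hMOM⟩ := hMOM r hr1' (η / 4) (by positivity)
  obtain ⟨C₃, hC₃, hPRS⟩ := hPRS (η / 4) (by positivity)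
  obtain ⟨Q₀, hQ₀, hlarge⟩ := large hη C₃
  refine ⟨r, Q₀, C₁ * 6 + C₁ * (4 * C₂) ^ (1 / (2 * r : ℝ)), hr1', hQ₀, by positivity, ?_⟩
  intro q χ hχ hq T hT1 hT2
  obtain ⟨h2, h17, h3⟩ := hlarge q hq
  have hQ : (1 : ℝ) ≤ q := hQ₀.trans hq
  have hQ0 : (0 : ℝ) < q := by linarith
  have hTpos : (0 : ℝ) < T := lt_of_lt_of_le (Real.rpow_pos_of_pos hQ0 _) hT1
  obtain ⟨A, B, hB1, hB, h16, hA, hAQ, hAT, hfirst⟩ :=
    params hη hη' hr1' hrinv hδ0 hδ hQ h2 h17 hT1 hT2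
  have hA0 : (0 : ℝ) < A := lt_of_lt_of_le (Real.rpow_pos_of_pos hQ0 _) hA
  obtain ⟨P, hP, hPc⟩ := hPRS q A (by exact_mod_cast hQ)
    ((Real.rpow_le_rpow_of_exponent_le hQ (by linarith)).trans hA) (h3.trans hA)
  obtain ⟨M, g, φ, ψ, hG, hqM, hψ1, hψ2, hχ'⟩ := hχ
  obtain ⟨hM0, hg0⟩ := good_pos hG
  have : NeZero M := ⟨hM0.ne'⟩
  have : NeZero g := ⟨hg0.ne'⟩
  have hPne : P.Nonempty := by
    rw [← Finset.card_pos]
    have : (0 : ℝ) < P.card := lt_of_lt_of_le (Real.rpow_pos_of_pos hA0 _) hPc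
    exact_mod_cast this
  have hcho : ∀ p : ℕ, ∃ a : E, p ∈ P → nm a = p := by
    intro p
    by_cases hp : p ∈ P
    · obtain ⟨a, ha⟩ := (hP p hp).2.2.2.2
      exact ⟨a, fun _ => ha⟩
    · exact ⟨0, fun h => absurd h hp⟩
  choose a ha using hcho
  have hmain := hBG (RR M g) (PhiR M g φ) (XR M g) q (XR_mul M g) (XR_abs M g)
    (fun z hz hz0 => by rw [← hqM]; exact phi_zero hG φ hz hz0) P a A B T
    (fun p hp => ⟨(hP p hp).1, (hP p hp).2.1, ha p hp,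
      phi_unit hG φ (hP p hp).1 (by rw [hqM]; exact (hP p hp).2.2.1) (ha p hp)⟩)
    hPne hB1 (by exact_mod_cast hTpos) (by exact_mod_cast h16) ψ hψ1 hψ2
  have hsum : ∑ z ∈ EB T, χ z = ∑ z ∈ EB T, ψ z * XR M g (PhiR M g φ z) :=
    Finset.sum_congr rfl fun z _ => hχ' z
  rw [hsum]
  refine hmain.trans ?_
  have hmom := hMOM M g hG B hB1
  rw [hqM] at hmom
  have hsec := second (N := P.card) hη hη' hr1' hQ hTpos hC₂ hB hAQ hA0 hAT hPc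
    (Finset.sum_nonneg fun x _ => pow_nonneg (abs_nonneg _) _) hmom
  have e1 : C₁ * (B * √(A * T) + (B : ℝ) ^ 2 * A) ≤ C₁ * (6 * T * (q : ℝ) ^ (-(η / (4 * r)))) :=
    mul_le_mul_of_nonneg_left hfirst hC₁.le
  have e2 := mul_le_mul_of_nonneg_left hsec (by positivity : 0 ≤ C₁ * (T : ℝ))
  refine (add_le_add e1 e2).trans (le_of_eq ?_)
  ring

theorem t_BURof : S_BURof := by
  intro hMOM hBG hPRS η₀ hη₀
  set η := min η₀ (1 / 8) with hηdef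
  have hη : 0 < η := lt_min hη₀ (by norm_num)
  have hη' : η ≤ 1 / 8 := min_le_right _ _
  obtain ⟨r, Q₀, C, hr, hQ₀, hC, hbig⟩ := big hη hη' hMOM hBG hPRS
  have hr0 : (0 : ℝ) < r := by exact_mod_cast hr
  set δ := η / (4 * r) with hδ
  have hδ0 : 0 < δ := by positivity
  set Q₁ := Q₀ ^ (1 / 2 + δ) with hQ₁
  have hQ00 : 0 < Q₀ := by linarith
  have hQ₁0 : 0 < Q₁ := Real.rpow_pos_of_pos hQ00 _
  refine ⟨δ, C + 9 * Q₁ * Q₀ ^ δ, hδ0, by positivity, ?_⟩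
  intro q χ hχ T hT1 hT2
  have hq1 : 1 ≤ q := per_pos hχ
  have hQ : (1 : ℝ) ≤ q := by exact_mod_cast hq1
  have hQ0 : (0 : ℝ) < q := by linarith
  have hT0 : (0 : ℝ) ≤ T := Nat.cast_nonneg _
  have hqd : 0 < (q : ℝ) ^ (-δ) := Real.rpow_pos_of_pos hQ0 _
  have hT1' : (q : ℝ) ^ (1 / 4 + η) ≤ T :=
    (Real.rpow_le_rpow_of_exponent_le hQ (by linarith [min_le_left η₀ (1 / 8)])).trans hT1
  by_cases hq : Q₀ ≤ q
  · refine (hbig q χ hχ hq T hT1' hT2).trans ?_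
    apply mul_le_mul_of_nonneg_right _ hqd.le
    apply mul_le_mul_of_nonneg_right _ hT0
    have : 0 ≤ 9 * Q₁ * Q₀ ^ δ := by positivity
    linarith
  · push Not at hq
    have hTone : (1 : ℝ) ≤ T := (Real.one_le_rpow hQ (by linarith)).trans hT1'
    have hTQ : (T : ℝ) ≤ Q₁ := hT2.trans (Real.rpow_le_rpow hQ0.le hq.le (by linarith))
    have h1 : |∑ z ∈ EB T, χ z| ≤ ((EB T).card : ℝ) := by
      refine (Finset.abs_sum_le_sum_abs _ _).trans ?_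
      refine (Finset.sum_le_sum fun z _ => per_abs hχ z).trans ?_
      simp
    have h2 : ((EB T).card : ℝ) ≤ (2 * T + 1) ^ 2 := by exact_mod_cast card_EB T
    have h3 : (2 * (T : ℝ) + 1) ^ 2 ≤ 9 * Q₁ * T := by nlinarith
    have h4 : 1 ≤ Q₀ ^ δ * (q : ℝ) ^ (-δ) := by
      have h5 : Q₀ ^ (-δ) ≤ (q : ℝ) ^ (-δ) := Real.rpow_le_rpow_of_nonpos hQ0 hq.le (by linarith)
      have h6 : Q₀ ^ δ * Q₀ ^ (-δ) = 1 := by
        rw [← Real.rpow_add hQ00, add_neg_cancel, Real.rpow_zero]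
      rw [← h6]
      exact mul_le_mul_of_nonneg_left h5 (Real.rpow_nonneg hQ00.le _)
    have h7 : 0 ≤ C * T * (q : ℝ) ^ (-δ) := by positivity
    calc |∑ z ∈ EB T, χ z| ≤ 9 * Q₁ * T := h1.trans (h2.trans h3)
      _ = 9 * Q₁ * T * 1 := by ring
      _ ≤ 9 * Q₁ * T * (Q₀ ^ δ * (q : ℝ) ^ (-δ)) := mul_le_mul_of_nonneg_left h4 (by positivity)
      _ ≤ (C + 9 * Q₁ * Q₀ ^ δ) * T * (q : ℝ) ^ (-δ) := by
          have : (C + 9 * Q₁ * Q₀ ^ δ) * T * (q : ℝ) ^ (-δ) =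
            C * T * (q : ℝ) ^ (-δ) + 9 * Q₁ * T * (Q₀ ^ δ * (q : ℝ) ^ (-δ)) := by ring
          rw [this]
          linarith

end Pool.Agent.K1H16.Q3
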